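import Pool.Agent.H7.T4.Lin

/-!
Project TM4 (MP_b6022c_nt), row (B3): density of `Bad3` on `[0, 2^a)`.
-/

namespace Pool.Agent.H7.T4

open Finset Pool.Agent.H9.TC Pool.Agent.H20.TM Pool.Agent.H20.T4

theorem ndvd_mul {a b : ℕ} {x y : ℤ} (hx : ¬ (2 : ℤ) ^ a ∣ x) (hy : ¬ (2 : ℤ) ^ b ∣ y) :
    ¬ (2 : ℤ) ^ (a + b) ∣ x * y := by
  obtain ⟨e, he, x', rfl, hx'⟩ := exists_val hx
  obtain ⟨e', he', y', rfl, hy'⟩ := exists_val hy
  intro h
  have h1 : (2 : ℤ) ^ (e + e' + 1) ∣ 2 ^ e * x' * (2 ^ e' * y') :=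
    (pow_dvd_pow 2 (by omega)).trans h
  have e1 : (2 : ℤ) ^ e * x' * (2 ^ e' * y') = 2 ^ (e + e') * (x' * y') := by ring
  rw [e1, pow_succ] at h1
  have h2 : (2 : ℤ) ∣ x' * y' := (mul_dvd_mul_iff_left (by positivity)).1 h1
  rcases Int.prime_two.dvd_or_dvd h2 with h3 | h3
  · exact hx' h3
  · exact hy' h3

theorem ndvd_of_abs_lt {a : ℕ} {x : ℤ} (h0 : x ≠ 0) (h : |x| < 2 ^ a) : ¬ (2 : ℤ) ^ a ∣ x := by
  intro hd
  have := Int.le_of_dvd (abs_pos.2 h0) ((dvd_abs _ _).2 hd)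
  omega

theorem ndvd_mono {a b : ℕ} {x : ℤ} (hab : a ≤ b) (h : ¬ (2 : ℤ) ^ a ∣ x) : ¬ (2 : ℤ) ^ b ∣ x :=
  fun h' => h ((pow_dvd_pow 2 hab).trans h')

/-- valuation of `As + 2^d K`. -/
theorem val_sum {m d L C : ℕ} {As K : ℤ} (hA : |As| ≤ 2 ^ m) (hK : |K| ≤ 2 ^ C)
    (hKd : ¬ (2 : ℤ) ^ L ∣ K) (hd : d = 0 ∨ m + 1 ≤ d) (h0 : As + 2 ^ d * K ≠ 0) :
    ¬ (2 : ℤ) ^ (d + L + m + C + 2) ∣ As + 2 ^ d * K := by
  rcases hd with rfl | hd
  · refine ndvd_of_abs_lt h0 ?_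
    have h1 : |As + 2 ^ 0 * K| ≤ |As| + |K| := by
      simp only [pow_zero, one_mul]
      exact abs_add_le _ _
    have h2 : (2 : ℤ) ^ m ≤ 2 ^ (0 + L + m + C) := pow_le_pow_right₀ (by norm_num) (by omega)
    have h3 : (2 : ℤ) ^ C ≤ 2 ^ (0 + L + m + C) := pow_le_pow_right₀ (by norm_num) (by omega)
    have h4 : (0 : ℤ) < 2 ^ (0 + L + m + C) := by positivity
    have e : (2 : ℤ) ^ (0 + L + m + C + 2) = 4 * 2 ^ (0 + L + m + C) := by ring
    rw [e]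
    linarith
  · by_cases hA0 : As = 0
    · subst hA0
      have h1 : ¬ (2 : ℤ) ^ (d + L) ∣ 0 + 2 ^ d * K := by
        intro h
        rw [zero_add, pow_add] at h
        exact hKd ((mul_dvd_mul_iff_left (by positivity)).1 h)
      exact ndvd_mono (by omega) h1
    · have h1 : ¬ (2 : ℤ) ^ (m + 1) ∣ As := by
        refine ndvd_of_abs_lt hA0 ?_
        have h2 : (0 : ℤ) < 2 ^ m := by positivity
        have e : (2 : ℤ) ^ (m + 1) = 2 * 2 ^ m := by ring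
        rw [e]
        linarith
      have h2 : (2 : ℤ) ^ (m + 1) ∣ 2 ^ d * K := Dvd.dvd.mul_right (pow_dvd_pow 2 hd) _
      have h3 : ¬ (2 : ℤ) ^ (m + 1) ∣ As + 2 ^ d * K := by
        intro h
        exact h1 ((dvd_add_left h2).1 h)
      exact ndvd_mono (by omega) h3

theorem b3 : B3Stmt := by
  classical
  intro q c L g9 hq hc hL1
  refine ⟨24 * c + 2 * (L + g9) + 8, ?_⟩
  intro p hp v uf σ a hv hva hσ huf
  have q0 : p ≤ q * p := Nat.le_mul_of_pos_left _ hq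
  have e60 : (60 * q + 60) * p = 60 * (q * p) + 60 * p := by ring
  have e10 : (10 * q + 10) * p = 10 * (q * p) + 10 * p := by ring
  have e43 : (4 * q + 3) * p = 4 * (q * p) + 3 * p := by ring
  have e44 : (4 * q + 4) * p = 4 * (q * p) + 4 * p := by ring
  have e22 : (2 * q + 2) * p = 2 * (q * p) + 2 * p := by ring
  have e24 : (2 * q + 4) * p = 2 * (q * p) + 4 * p := by ring
  have e25 : (2 * q + 5) * p = 2 * (q * p) + 5 * p := by ring
  obtain ⟨Q, hQ⟩ : ∃ Q, Q = q * p := ⟨_, rfl⟩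
  rw [← hQ] at q0 e60 e10 e43 e44 e22 e24 e25
  obtain ⟨KK, hKK⟩ : ∃ KK : ℤ, KK = 2 * 4 ^ (L + g9) := ⟨_, rfl⟩
  have hKKe : KK = 2 ^ (2 * (L + g9) + 1) := by
    have h4 : (4 : ℤ) ^ (L + g9) = 2 ^ (2 * (L + g9)) := by rw [pow_mul]; norm_num
    rw [hKK, h4, pow_succ]; ring
  obtain ⟨d, hd⟩ : ∃ d, d = v - (uf + L) := ⟨_, rfl⟩
  have huv : uf + L ≤ v := by
    rcases hv with h | h
    · omega
    · omega
  have hd' : d = 0 ∨ (2 * q + 4) * p + 1 ≤ d := by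
    rcases hv with h | h
    · left; omega
    · right
      rw [e24]; rw [e25] at h
      omega
  obtain ⟨I, hI⟩ : ∃ I : Finset ((ℕ × ℕ) × (ℤ × ℤ)), I =
    ((range (2 ^ ((4 * q + 3) * p)) ×ˢ range (2 ^ ((2 * q + 2) * p))) ×ˢ
      (Icc (-(2 ^ ((2 * q + 4) * p) : ℤ)) (2 ^ ((2 * q + 4) * p)) ×ˢ Icc (-KK) KK)).filter
    (fun x => 1 ≤ x.1.1 ∧ 1 ≤ x.1.2 ∧ ¬ (2 : ℤ) ^ L ∣ x.2.2 ∧ x.2.1 + 2 ^ d * x.2.2 ≠ 0) := ⟨_, rfl⟩
  obtain ⟨W, hW⟩ : ∃ W : ℤ, W = 2 ^ (v + (4 * q + 4) * p - σ) := ⟨_, rfl⟩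
  let Yf : (ℕ × ℕ) × (ℤ × ℤ) → ℤ := fun x => 24 * c * x.1.1 * x.1.2 * (x.2.1 + 2 ^ d * x.2.2)
  have h1 : cnt (2 ^ a) (fun n => Bad3 q c L g9 p v uf σ n) ≤
      cnt (2 ^ a) (fun b => ∃ x ∈ I, small v W (((0 : ℤ) + b) * Yf x + 0)) := by
    refine cnt_mono ?_
    rintro b _ ⟨k, t, As, K, hk1, hk, ht1, ht, hAs, hK, hKd, h0, hs⟩
    refine ⟨((k, t), (As, K)), ?_, ?_⟩
    · rw [hI, mem_filter, mem_product, mem_product, mem_product, mem_range, mem_range, mem_Icc,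
        mem_Icc]
      rw [abs_le] at hK hAs
      rw [← hd] at h0
      exact ⟨⟨⟨hk, ht⟩, hAs, by rw [hKK]; exact hK⟩, hk1, ht1, hKd, h0⟩
    · have e : (((0 : ℤ) + (b : ℤ)) * Yf ((k, t), (As, K)) + 0) =
        24 * c * k * t * (b : ℤ) * (As + 2 ^ (v - (uf + L)) * K) := by
        simp only [Yf, hd]
        ring
      rw [e, hW]
      exact hs
  have h2 := cnt_exists (2 ^ a) I (fun x b => small v W (((0 : ℤ) + b) * Yf x + 0))
  have h3 : ∀ x ∈ I, (cnt (2 ^ a) (fun b => small v W (((0 : ℤ) + b) * Yf x + 0)) : ℝ) *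
      2 ^ ((50 * q + 50) * p) ≤ 4 * 2 ^ a := by
    rintro ⟨⟨k, t⟩, ⟨As, K⟩⟩ hx
    rw [hI, mem_filter, mem_product, mem_product, mem_product, mem_range, mem_range, mem_Icc,
      mem_Icc] at hx
    obtain ⟨⟨⟨hk, ht⟩, hAs, hK⟩, hk1, ht1, hKd, h0⟩ := hx
    simp only at hk ht hAs hK hk1 ht1 hKd h0
    have hnd : ¬ (2 : ℤ) ^ (24 * c + (4 * q + 3) * p + (2 * q + 2) * p +
        (d + L + (2 * q + 4) * p + (2 * (L + g9) + 1) + 2)) ∣ Yf ((k, t), (As, K)) := by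
      simp only [Yf]
      refine ndvd_mul (ndvd_mul (ndvd_mul ?_ ?_) ?_) ?_
      · refine ndvd_of_abs_lt (by positivity) ?_
        rw [abs_of_nonneg (by positivity)]
        have h4 : 24 * c < 2 ^ (24 * c) := Nat.lt_two_pow_self
        exact_mod_cast h4
      · refine ndvd_of_abs_lt (by positivity) ?_
        rw [abs_of_nonneg (by positivity)]
        exact_mod_cast hk
      · refine ndvd_of_abs_lt (by positivity) ?_
        rw [abs_of_nonneg (by positivity)]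
        exact_mod_cast ht
      · refine val_sum (abs_le.2 hAs) ?_ hKd hd' h0
        rw [← hKKe]
        exact abs_le.2 hK
    have hW0 : (0 : ℤ) ≤ W := by rw [hW]; positivity
    have h4 := lin (Yf ((k, t), (As, K))) 0 0 v _ a W hnd (by omega) hva hW0
    have hE : (0 : ℝ) < 2 ^ v := by positivity
    have e50 : (50 * q + 50) * p = 50 * Q + 50 * p := by rw [hQ]; ring
    have h5 : (2 : ℝ) * W * 2 ^ ((50 * q + 50) * p) ≤ 2 * 2 ^ v := by
      rw [hW]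
      push_cast
      rw [mul_assoc, ← pow_add]
      refine mul_le_mul_of_nonneg_left ?_ (by norm_num)
      exact pow_le_pow_right₀ (by norm_num) (by omega)
    have h6 : (1 : ℝ) * 2 ^ ((50 * q + 50) * p) ≤ 2 ^ v := by
      rw [one_mul]
      exact pow_le_pow_right₀ (by norm_num) (by omega)
    have h7 : (2 : ℝ) ^ (24 * c + (4 * q + 3) * p + (2 * q + 2) * p +
        (d + L + (2 * q + 4) * p + (2 * (L + g9) + 1) + 2)) * 2 ^ ((50 * q + 50) * p) ≤ 2 ^ v := by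
      rw [← pow_add]
      exact pow_le_pow_right₀ (by norm_num) (by omega)
    have h9 : (cnt (2 ^ a) (fun b => small v W (((0 : ℤ) + b) * Yf ((k, t), (As, K)) + 0)) : ℝ) *
        2 ^ ((50 * q + 50) * p) * 2 ^ v ≤ 4 * 2 ^ a * 2 ^ v := by
      calc _ = (cnt (2 ^ a) (fun b => small v W (((0 : ℤ) + b) * Yf ((k, t), (As, K)) + 0)) : ℝ) *
            2 ^ v * 2 ^ ((50 * q + 50) * p) := by ring
        _ ≤ (2 ^ a * (2 * W + 1 + 2 ^ (24 * c + (4 * q + 3) * p + (2 * q + 2) * p +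
            (d + L + (2 * q + 4) * p + (2 * (L + g9) + 1) + 2)))) * 2 ^ ((50 * q + 50) * p) :=
            mul_le_mul_of_nonneg_right h4 (by positivity)
        _ = 2 ^ a * (2 * W * 2 ^ ((50 * q + 50) * p) + 1 * 2 ^ ((50 * q + 50) * p) +
            2 ^ (24 * c + (4 * q + 3) * p + (2 * q + 2) * p +
            (d + L + (2 * q + 4) * p + (2 * (L + g9) + 1) + 2)) * 2 ^ ((50 * q + 50) * p)) := by
            ring
        _ ≤ 2 ^ a * (2 * 2 ^ v + 2 ^ v + 2 ^ v) := by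
            refine mul_le_mul_of_nonneg_left ?_ (by positivity)
            linarith
        _ = _ := by ring
    exact le_of_mul_le_mul_right h9 hE
  have hcard : (I.card : ℝ) ≤ 2 ^ ((8 * q + 9) * p + (2 * (L + g9) + 5)) := by
    have hc1 : I.card ≤ 2 ^ ((4 * q + 3) * p) * 2 ^ ((2 * q + 2) * p) *
        (2 ^ ((2 * q + 4) * p + 2) * 2 ^ (2 * (L + g9) + 3)) := by
      rw [hI]
      refine (card_filter_le _ _).trans ?_
      rw [card_product, card_product, card_product, card_range, card_range, Int.card_Icc,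
        Int.card_Icc]
      refine Nat.mul_le_mul_left _ (Nat.mul_le_mul ?_ ?_)
      · have h1 : (1 : ℤ) ≤ 2 ^ ((2 * q + 4) * p) := one_le_pow₀ (by norm_num)
        have e : (2 : ℤ) ^ ((2 * q + 4) * p + 2) = 4 * 2 ^ ((2 * q + 4) * p) := by ring
        rw [Int.toNat_le]
        push_cast
        rw [e]
        linarith
      · have e : (2 : ℤ) ^ (2 * (L + g9) + 3) = 8 * 4 ^ (L + g9) := by
          rw [pow_add, pow_mul]; norm_num; ring
        have h1 : (1 : ℤ) ≤ 4 ^ (L + g9) := one_le_pow₀ (by norm_num)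
        rw [Int.toNat_le]
        push_cast
        rw [e, hKK]
        linarith
    have e : 2 ^ ((4 * q + 3) * p) * 2 ^ ((2 * q + 2) * p) *
        (2 ^ ((2 * q + 4) * p + 2) * 2 ^ (2 * (L + g9) + 3)) =
        2 ^ ((8 * q + 9) * p + (2 * (L + g9) + 5)) := by
      rw [← pow_add, ← pow_add, ← pow_add]
      congr 1
      ring
    rw [e] at hc1
    exact_mod_cast hc1
  have hsum : (cnt (2 ^ a) (fun n => Bad3 q c L g9 p v uf σ n) : ℝ) ≤
      ∑ x ∈ I, (cnt (2 ^ a) (fun b => small v W (((0 : ℤ) + b) * Yf x + 0)) : ℝ) := by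
    exact_mod_cast h1.trans h2
  have h10 : (cnt (2 ^ a) (fun n => Bad3 q c L g9 p v uf σ n) : ℝ) * 2 ^ ((50 * q + 50) * p) ≤
      2 ^ ((8 * q + 9) * p + (2 * (L + g9) + 5)) * (4 * 2 ^ a) := by
    calc _ ≤ (∑ x ∈ I, (cnt (2 ^ a) (fun b => small v W (((0 : ℤ) + b) * Yf x + 0)) : ℝ)) *
          2 ^ ((50 * q + 50) * p) := mul_le_mul_of_nonneg_right hsum (by positivity)
      _ = ∑ x ∈ I, (cnt (2 ^ a) (fun b => small v W (((0 : ℤ) + b) * Yf x + 0)) : ℝ) *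
          2 ^ ((50 * q + 50) * p) := by rw [sum_mul]
      _ ≤ ∑ x ∈ I, (4 * 2 ^ a : ℝ) := sum_le_sum h3
      _ = (I.card : ℝ) * (4 * 2 ^ a) := by rw [sum_const, nsmul_eq_mul]
      _ ≤ _ := mul_le_mul_of_nonneg_right hcard (by positivity)
  have h11 : (0 : ℝ) < 2 ^ ((40 * q + 40) * p) := by positivity
  have e40 : (40 * q + 40) * p = 40 * Q + 40 * p := by rw [hQ]; ring
  have e89 : (8 * q + 9) * p = 8 * Q + 9 * p := by rw [hQ]; ring
  refine le_of_mul_le_mul_right ?_ h11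
  calc (cnt (2 ^ a) (fun n => Bad3 q c L g9 p v uf σ n) : ℝ) * 2 ^ ((10 * q + 10) * p) *
        2 ^ ((40 * q + 40) * p)
      = (cnt (2 ^ a) (fun n => Bad3 q c L g9 p v uf σ n) : ℝ) * 2 ^ ((50 * q + 50) * p) := by
        rw [mul_assoc, ← pow_add]
        congr 2
        ring
    _ ≤ 2 ^ ((8 * q + 9) * p + (2 * (L + g9) + 5)) * (4 * 2 ^ a) := h10
    _ = 2 ^ a * 2 ^ ((8 * q + 9) * p + (2 * (L + g9) + 7)) := by ring
    _ ≤ 2 ^ a * 2 ^ ((40 * q + 40) * p) := by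
        refine mul_le_mul_of_nonneg_left ?_ (by positivity)
        exact pow_le_pow_right₀ (by norm_num) (by omega)

end Pool.Agent.H7.T4
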