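import Pool.Agent.H20.T4.Stm
import Pool.Agent.H9.TC.Basic

/-!
Project TM4 (MP_b6022c_nt), row (LIN): linear functions modulo `2^E`.
-/

namespace Pool.Agent.H7.T4

open Finset Pool.Agent.H9.TC Pool.Agent.H20.TM Pool.Agent.H20.T4

theorem exists_val {X : ℕ} {Y : ℤ} (h : ¬ (2 : ℤ) ^ X ∣ Y) :
    ∃ e < X, ∃ Y' : ℤ, Y = 2 ^ e * Y' ∧ ¬ (2 : ℤ) ∣ Y' := by
  induction X generalizing Y with
  | zero => exact absurd (by simp) h
  | succ X ih =>
    by_cases h2 : (2 : ℤ) ∣ Y
    · obtain ⟨Y1, rfl⟩ := h2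
      have h1 : ¬ (2 : ℤ) ^ X ∣ Y1 := by
        intro h1
        apply h
        rw [pow_succ, mul_comm]
        exact mul_dvd_mul_left 2 h1
      obtain ⟨e, he, Y', rfl, hY'⟩ := ih h1
      exact ⟨e + 1, by omega, Y', by ring, hY'⟩
    · exact ⟨0, by omega, Y, by simp, h2⟩

theorem dvd_of_odd_mul {n : ℕ} {x y : ℤ} (hy : ¬ (2 : ℤ) ∣ y) (h : (2 : ℤ) ^ n ∣ x * y) :
    (2 : ℤ) ^ n ∣ x := by
  have hc : IsCoprime ((2 : ℤ) ^ n) y :=
    IsCoprime.pow_left ((Prime.coprime_iff_not_dvd Int.prime_two).2 hy)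
  exact hc.dvd_of_dvd_mul_right h

theorem lin : LINStmt := by
  classical
  intro Y Y0 n1 E X β W hY hXE hEβ hW
  obtain ⟨e, he, Y', rfl, hY'⟩ := exists_val hY
  set A : Finset ℕ := (range (2 ^ β)).filter
    (fun b => small E W ((n1 + b) * (2 ^ e * Y') + Y0)) with hA
  have hex : ∀ b : ℕ, ∃ s : ℤ, b ∈ A → (|s| ≤ W ∧ (2 : ℤ) ^ E ∣ ((n1 + b) * (2 ^ e * Y') + Y0) - s) := by
    intro b
    by_cases hb : b ∈ A
    · rw [hA, mem_filter] at hb
      obtain ⟨s, hs⟩ := hb.2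
      exact ⟨s, fun _ => hs⟩
    · exact ⟨0, fun h => absurd h hb⟩
  choose s hs using hex
  set M : ℕ := 2 ^ (E - e) with hM
  have hMpos : 0 < M := by positivity
  have h2e : (0 : ℤ) < 2 ^ e := by positivity
  -- the injection
  have hcard : A.card ≤ (range (2 ^ (β - (E - e))) ×ˢ range ((2 * W / 2 ^ e).toNat + 1)).card := by
    refine card_le_card_of_injOn (fun b => (b / M, ((s b + W) / 2 ^ e).toNat)) ?_ ?_
    · intro b hb
      have hb' : b ∈ A := hb
      have hbr : b < 2 ^ β := by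
        rw [hA, mem_filter, mem_range] at hb'; exact hb'.1
      obtain ⟨h1, h2⟩ := hs b hb'
      rw [abs_le] at h1
      simp only [coe_product, Set.mem_prod, mem_coe, mem_range]
      constructor
      · rw [Nat.div_lt_iff_lt_mul hMpos, hM, ← pow_add]
        have : β - (E - e) + (E - e) = β := by omega
        rw [this]; exact hbr
      · have h3 : (s b + W) / 2 ^ e ≤ 2 * W / 2 ^ e := Int.ediv_le_ediv h2e (by linarith)
        have h4 : 0 ≤ (s b + W) / 2 ^ e := Int.ediv_nonneg (by linarith) h2e.le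
        omega
    · intro b hb b' hb' hbb
      obtain ⟨h1, h2⟩ := hs b hb
      obtain ⟨h1', h2'⟩ := hs b' hb'
      rw [abs_le] at h1 h1'
      simp only [Prod.mk.injEq] at hbb
      obtain ⟨hq, hr⟩ := hbb
      have h4 : 0 ≤ (s b + W) / 2 ^ e := Int.ediv_nonneg (by linarith) h2e.le
      have h4' : 0 ≤ (s b' + W) / 2 ^ e := Int.ediv_nonneg (by linarith) h2e.le
      have hr' : (s b + W) / 2 ^ e = (s b' + W) / 2 ^ e := by omega
      -- s b and s b' are congruent modulo 2^e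
      have hE : (2 : ℤ) ^ e ∣ 2 ^ E := pow_dvd_pow 2 (by omega)
      have c1 : (2 : ℤ) ^ e ∣ s b - s b' := by
        have d1 := hE.trans h2
        have d2 := hE.trans h2'
        have d3 : (2 : ℤ) ^ e ∣ (((n1 + b') * (2 ^ e * Y') + Y0) - s b') -
          (((n1 + b) * (2 ^ e * Y') + Y0) - s b) := dvd_sub d2 d1
        have d4 : (2 : ℤ) ^ e ∣ 2 ^ e * (((b' : ℤ) - b) * Y') := dvd_mul_right _ _
        have d5 := dvd_sub d3 d4
        have e5 : (((n1 + (b' : ℤ)) * (2 ^ e * Y') + Y0) - s b') -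
          (((n1 + (b : ℤ)) * (2 ^ e * Y') + Y0) - s b) - 2 ^ e * (((b' : ℤ) - b) * Y')
          = s b - s b' := by ring
        rwa [e5] at d5
      have hsb : s b = s b' := by
        obtain ⟨k, hk⟩ := c1
        have e1 : s b + W = (s b' + W) + 2 ^ e * k := by linarith
        rw [e1, Int.add_mul_ediv_left _ _ h2e.ne'] at hr'
        have hk0 : k = 0 := by linarith
        rw [hk0] at hk
        linarith
      have h6 : (2 : ℤ) ^ E ∣ (2 ^ e * (((b : ℤ) - b') * Y')) := by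
        have d3 := dvd_sub h2 h2'
        have e5 : (((n1 + (b : ℤ)) * (2 ^ e * Y') + Y0) - s b) -
          (((n1 + (b' : ℤ)) * (2 ^ e * Y') + Y0) - s b') = 2 ^ e * (((b : ℤ) - b') * Y') := by
          rw [hsb]; ring
        rwa [e5] at d3
      have h7 : (2 : ℤ) ^ (E - e) ∣ ((b : ℤ) - b') * Y' := by
        have e7 : (2 : ℤ) ^ E = 2 ^ e * 2 ^ (E - e) := by
          rw [← pow_add]; congr 1; omega
        rw [e7] at h6
        exact (mul_dvd_mul_iff_left h2e.ne').1 h6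
      have h8 := dvd_of_odd_mul hY' h7
      have h9 : (M : ℤ) ∣ (b : ℤ) - b' := by
        rw [hM]; push_cast; exact h8
      have h10 : b % M = b' % M := by
        have h11 : (b : ℤ) % M = (b' : ℤ) % M :=
          Int.emod_eq_emod_iff_emod_sub_eq_zero.2 (Int.emod_eq_zero_of_dvd h9)
        exact_mod_cast h11
      calc b = M * (b / M) + b % M := (Nat.div_add_mod b M).symm
        _ = M * (b' / M) + b' % M := by rw [hq, h10]
        _ = b' := Nat.div_add_mod b' M
  rw [card_product, card_range, card_range] at hcard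
  have hcnt : cnt (2 ^ β) (fun b => small E W ((n1 + b) * (2 ^ e * Y') + Y0)) = A.card := by
    unfold cnt
    rw [hA]
  rw [hcnt]
  have hc2 : (A.card : ℝ) ≤ 2 ^ (β - (E - e)) * (2 * W / 2 ^ e + 1) := by
    have h1 : (A.card : ℝ) ≤ 2 ^ (β - (E - e)) * (((2 * W / 2 ^ e).toNat : ℝ) + 1) := by
      exact_mod_cast hcard
    refine h1.trans ?_
    refine mul_le_mul_of_nonneg_left ?_ (by positivity)
    have h2 : (((2 * W / 2 ^ e).toNat : ℤ) : ℝ) = ((2 * W / 2 ^ e : ℤ) : ℝ) := by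
      rw [Int.toNat_of_nonneg (Int.ediv_nonneg (by linarith) h2e.le)]
    have h3 : ((2 * W / 2 ^ e : ℤ) : ℝ) ≤ 2 * (W : ℝ) / 2 ^ e := by
      rw [le_div_iff₀ (by positivity)]
      have := Int.ediv_mul_le (2 * W) h2e.ne'
      exact_mod_cast this
    have h4 : (((2 * W / 2 ^ e).toNat : ℕ) : ℝ) = (((2 * W / 2 ^ e).toNat : ℤ) : ℝ) := by
      push_cast; rfl
    rw [h4, h2]
    linarith
  have hX : (2 : ℝ) ^ e ≤ 2 ^ X := pow_le_pow_right₀ (by norm_num) he.le
  calc (A.card : ℝ) * 2 ^ E ≤ (2 ^ (β - (E - e)) * (2 * W / 2 ^ e + 1)) * 2 ^ E :=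
        mul_le_mul_of_nonneg_right hc2 (by positivity)
    _ = 2 ^ β * (2 * W + 2 ^ e) := by
        have e1 : (2 : ℝ) ^ β = 2 ^ (β - (E - e)) * 2 ^ (E - e) := by
          rw [← pow_add]; congr 1; omega
        have e2 : (2 : ℝ) ^ E = 2 ^ (E - e) * 2 ^ e := by
          rw [← pow_add]; congr 1; omega
        rw [e1, e2]
        have : (2 : ℝ) ^ e ≠ 0 := by positivity
        field_simp
    _ ≤ 2 ^ β * (2 * W + 1 + 2 ^ X) := by
        refine mul_le_mul_of_nonneg_left ?_ (by positivity)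
        linarith

end Pool.Agent.H7.T4
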